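import Pool.Agent.N604.MW.Stm10

/-!
# Project AD (helper604), part AFIN (helper619): from smoothed to sharp counts
-/

set_option autoImplicit false

namespace Pool.Agent.N619.AD

open Finset Filter Topology Pool.Agent.N604.MW

theorem lam_nonneg (u : ℝ) : 0 ≤ Lam u := le_max_left _ _

theorem lam_two (u : ℝ) : Lam (u - (⌊u⌋ : ℤ)) + Lam (u - ((⌊u⌋ + 1 : ℤ) : ℝ)) = 1 := by
  have h1 := Int.floor_le u
  have h2 := Int.lt_floor_add_one u
  unfold Lam
  push_cast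
  rw [abs_of_nonneg (by linarith), abs_of_nonpos (by linarith), max_eq_right (by linarith),
    max_eq_right (by linarith)]
  ring

theorem lam_zero (u : ℝ) (h : 1 ≤ |u|) : Lam u = 0 := by
  unfold Lam
  exact max_eq_left (by linarith)

theorem lam_ge (u : ℝ) (D U : ℤ) (hD : (D : ℝ) ≤ u) (hU : u ≤ U) :
    1 ≤ ∑ j ∈ Icc D U, Lam (u - (j : ℤ)) := by
  have h1 : D ≤ ⌊u⌋ := Int.le_floor.2 hD
  have h2 : ⌊u⌋ ≤ U := by
    have : (⌊u⌋ : ℝ) ≤ U := (Int.floor_le u).trans hU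
    exact_mod_cast this
  rcases eq_or_lt_of_le h2 with h3 | h3
  · have h4 : u = U := by
      apply le_antisymm hU
      rw [← h3]
      exact Int.floor_le u
    have h5 : Lam (u - (U : ℤ)) = 1 := by
      rw [h4]
      simp [Lam]
    rw [← h5]
    exact single_le_sum (f := fun j : ℤ => Lam (u - (j : ℤ))) (fun j _ => lam_nonneg _)
      (mem_Icc.2 ⟨by rw [← h3]; exact h1, le_refl _⟩)
  · have h4 : ({⌊u⌋, ⌊u⌋ + 1} : Finset ℤ) ⊆ Icc D U := by
      intro j hj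
      simp only [Finset.mem_insert, Finset.mem_singleton] at hj
      rw [mem_Icc]
      rcases hj with rfl | rfl
      · exact ⟨h1, h2⟩
      · exact ⟨by omega, by omega⟩
    rw [← lam_two u]
    refine le_trans (le_of_eq ?_) (sum_le_sum_of_subset_of_nonneg h4 fun j _ _ => lam_nonneg _)
    rw [sum_pair (by omega)]

theorem lam_le (u : ℝ) (D U : ℤ) : ∑ j ∈ Icc D U, Lam (u - (j : ℤ)) ≤ 1 := by
  have h1 : ∑ j ∈ Icc D U, Lam (u - (j : ℤ)) =
      ∑ j ∈ (Icc D U).filter (fun j => j = ⌊u⌋ ∨ j = ⌊u⌋ + 1), Lam (u - (j : ℤ)) := by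
    symm
    apply sum_filter_of_ne
    intro j _ hj
    by_contra hne
    push Not at hne
    apply hj
    apply lam_zero
    have h2 := Int.floor_le u
    have h3 := Int.lt_floor_add_one u
    rcases lt_trichotomy j ⌊u⌋ with h | h | h
    · have : (j : ℝ) + 1 ≤ ⌊u⌋ := by exact_mod_cast h
      rw [abs_of_nonneg (by linarith)]
      linarith
    · exact absurd h hne.1
    · have h4 : ⌊u⌋ + 2 ≤ j := by
        have := hne.2
        omega
      have : (⌊u⌋ : ℝ) + 2 ≤ j := by exact_mod_cast h4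
      rw [abs_of_nonpos (by linarith)]
      linarith
  rw [h1, ← lam_two u]
  have h2 : (Icc D U).filter (fun j => j = ⌊u⌋ ∨ j = ⌊u⌋ + 1) ⊆ ({⌊u⌋, ⌊u⌋ + 1} : Finset ℤ) := by
    intro j hj
    rw [mem_filter] at hj
    simp only [Finset.mem_insert, Finset.mem_singleton]
    exact hj.2
  refine (sum_le_sum_of_subset_of_nonneg h2 fun j _ _ => lam_nonneg _).trans (le_of_eq ?_)
  rw [sum_pair (by omega)]

section counts

variable {s : ℕ} (f : Fin s → ℤ → ℝ) (q : ℕ) (y Δ : ℝ) (A : Fin s → Finset ℤ)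

open scoped Classical in
theorem nf_eq (hf0 : ∀ i x, 0 ≤ f i x) (hq : 1 ≤ q)
    (hA : ∀ i x, (q : ℝ) * f i x < q * (y + Δ) → x ∈ A i) :
    (NF f y Δ : ℝ) = ∑ x ∈ Fintype.piFinset A,
      if (y ≤ ∑ i, f i (x i) ∧ ∑ i, f i (x i) < y + Δ) then (1 : ℝ) else 0 := by
  have hq0 : (0 : ℝ) < q := by exact_mod_cast hq
  have hset : {x : Fin s → ℤ | y ≤ ∑ i, f i (x i) ∧ ∑ i, f i (x i) < y + Δ} =
      (((Fintype.piFinset A).filter
        (fun x => y ≤ ∑ i, f i (x i) ∧ ∑ i, f i (x i) < y + Δ) : Finset (Fin s → ℤ)) :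
          Set (Fin s → ℤ)) := by
    ext x
    simp only [coe_filter, Set.mem_ofPred_eq]
    constructor
    · intro hx
      refine ⟨?_, hx⟩
      rw [Fintype.mem_piFinset]
      intro i
      apply hA
      have h1 : f i (x i) ≤ ∑ i, f i (x i) :=
        single_le_sum (f := fun i => f i (x i)) (fun i _ => hf0 i (x i)) (mem_univ i)
      have h2 : f i (x i) < y + Δ := lt_of_le_of_lt h1 hx.2
      exact mul_lt_mul_of_pos_left h2 hq0
    · exact fun hx => hx.2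
  unfold NF
  rw [hset, Set.ncard_coe_finset, sum_boole]

theorem upper (hf0 : ∀ i x, 0 ≤ f i x) (hq : 1 ≤ q)
    (hA : ∀ i x, (q : ℝ) * f i x < q * (y + Δ) → x ∈ A i) (D U : ℤ) (hD : (D : ℝ) ≤ q * y)
    (hU : q * (y + Δ) ≤ U) :
    (NF f y Δ : ℝ) ≤ ∑ j ∈ Icc D U, RG A (fun i x => (q : ℝ) * f i x) j := by
  classical
  have hq0 : (0 : ℝ) < q := by exact_mod_cast hq
  rw [nf_eq f q y Δ A hf0 hq hA]
  unfold RG
  rw [sum_comm]
  apply sum_le_sum
  intro x _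
  have hsum : ∑ i, (q : ℝ) * f i (x i) = q * ∑ i, f i (x i) := by rw [mul_sum]
  rw [hsum]
  split_ifs with h
  · apply lam_ge
    · exact hD.trans (mul_le_mul_of_nonneg_left h.1 hq0.le)
    · exact (mul_le_mul_of_nonneg_left h.2.le hq0.le).trans hU
  · exact sum_nonneg fun j _ => lam_nonneg _

theorem lower (hf0 : ∀ i x, 0 ≤ f i x) (hq : 1 ≤ q)
    (hA : ∀ i x, (q : ℝ) * f i x < q * (y + Δ) → x ∈ A i) (D U : ℤ) (hD : q * y ≤ (D : ℝ) - 1)
    (hU : (U : ℝ) + 1 ≤ q * (y + Δ)) :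
    ∑ j ∈ Icc D U, RG A (fun i x => (q : ℝ) * f i x) j ≤ (NF f y Δ : ℝ) := by
  classical
  have hq0 : (0 : ℝ) < q := by exact_mod_cast hq
  rw [nf_eq f q y Δ A hf0 hq hA]
  unfold RG
  rw [sum_comm]
  apply sum_le_sum
  intro x _
  have hsum : ∑ i, (q : ℝ) * f i (x i) = q * ∑ i, f i (x i) := by rw [mul_sum]
  rw [hsum]
  split_ifs with h
  · exact lam_le _ D U
  · apply le_of_eq
    apply sum_eq_zero
    intro j hj
    rw [mem_Icc] at hj
    apply lam_zero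
    by_contra hlt
    push Not at hlt
    rw [abs_lt] at hlt
    apply h
    have h1 : (D : ℝ) ≤ j := by exact_mod_cast hj.1
    have h2 : (j : ℝ) ≤ U := by exact_mod_cast hj.2
    constructor
    · have : q * y ≤ q * ∑ i, f i (x i) := by linarith [hlt.1]
      exact le_of_mul_le_mul_left this hq0
    · have : q * ∑ i, f i (x i) < q * (y + Δ) := by linarith [hlt.2]
      exact lt_of_mul_lt_mul_left this hq0.le

end counts

/-- uniform comparison of powers -/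
theorem pow_cmp (κ τ a b : ℝ) (hτ : 0 < τ) : ∃ y0 : ℝ, 1 ≤ y0 ∧ ∀ y : ℝ, y0 ≤ y → ∀ j : ℝ,
    y - a ≤ j → j ≤ y + b → (1 - τ) * y ^ κ ≤ j ^ κ ∧ j ^ κ ≤ (1 + τ) * y ^ κ := by
  have hc : ContinuousAt (fun t : ℝ => t ^ κ) 1 := Real.continuousAt_rpow_const 1 κ (Or.inl one_ne_zero)
  rw [Metric.continuousAt_iff] at hc
  obtain ⟨δ, hδ, hc⟩ := hc τ hτ
  refine ⟨max 1 (max ((|a| + |b| + 1) / δ) (|a| + 1)), le_max_left _ _, ?_⟩
  intro y hy j h1 h2
  have hy1 : 1 ≤ y := (le_max_left _ _).trans hy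
  have hy2 : (|a| + |b| + 1) / δ ≤ y := ((le_max_left _ _).trans (le_max_right _ _)).trans hy
  have hy3 : |a| + 1 ≤ y := ((le_max_right _ _).trans (le_max_right _ _)).trans hy
  have hy0 : 0 < y := by linarith
  have ha := le_abs_self a
  have hb := le_abs_self b
  have hj0 : 0 < j := by linarith
  have ht : dist (j / y) 1 < δ := by
    rw [Real.dist_eq, div_sub_one hy0.ne', abs_div, abs_of_pos hy0, div_lt_iff₀ hy0]
    rw [div_le_iff₀ hδ] at hy2
    have h3 : |j - y| ≤ |a| + |b| := by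
      rw [abs_le]
      constructor
      · linarith [abs_nonneg b]
      · linarith [abs_nonneg a]
    linarith
  have h4 := hc ht
  rw [Real.dist_eq, Real.one_rpow, abs_lt] at h4
  have h5 : j ^ κ = (j / y) ^ κ * y ^ κ := by
    rw [← Real.mul_rpow (by positivity) hy0.le, div_mul_cancel₀ _ hy0.ne']
  have h6 : 0 ≤ y ^ κ := by positivity
  rw [h5]
  constructor
  · exact mul_le_mul_of_nonneg_right (by linarith [h4.1]) h6
  · exact mul_le_mul_of_nonneg_right (by linarith [h4.2]) h6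

/-- the bounds for one `q` -/
theorem bounds {s : ℕ} (f : Fin s → ℤ → ℝ) (c κ : ℝ) (hc : 0 < c) (hf0 : ∀ i x, 0 ≤ f i x)
    (hfin : ∀ (i : Fin s) (y : ℝ), {x : ℤ | f i x < y}.Finite) (q : ℕ) (hq : 1 ≤ q)
    (hasy : ASY (fun i x => (q : ℝ) * f i x) (c * (q : ℝ) ^ (-κ - 1)) κ) (Δ : ℝ) (hΔ : 0 < Δ)
    (τ : ℝ) (hτ : 0 < τ) (hτc : τ < c) (hτ1 : τ < 1) (hq3 : 3 < q * Δ) :
    ∀ᶠ y : ℝ in atTop, (Δ - 3 / q) * (c - τ) * (1 - τ) ≤ (NF f y Δ : ℝ) / y ^ κ ∧
      (NF f y Δ : ℝ) / y ^ κ ≤ (Δ + 3 / q) * (c + τ) * (1 + τ) := by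
  have hq0 : (0 : ℝ) < q := by exact_mod_cast hq
  have hQ : 0 < (q : ℝ) ^ (-κ - 1) := by positivity
  obtain ⟨n0, hn0⟩ := hasy (τ * (q : ℝ) ^ (-κ - 1)) (by positivity)
  obtain ⟨y0, hy01, hy0⟩ := pow_cmp κ τ 1 (q * Δ + 1) hτ
  filter_upwards [eventually_ge_atTop ((y0 + n0 + 2) / q)] with y hy
  have hqy : y0 + n0 + 2 ≤ q * y := by
    rw [div_le_iff₀ hq0] at hy
    linarith
  have hn00 : (0 : ℝ) ≤ n0 := Nat.cast_nonneg _
  have hypos : 0 < y := by
    by_contra h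
    push Not at h
    nlinarith
  have hyκ : 0 < y ^ κ := by positivity
  -- the smoothed counts
  have hqyκ : (q * y) ^ κ = (q : ℝ) ^ κ * y ^ κ := Real.mul_rpow hq0.le hypos.le
  have hQq : (q : ℝ) ^ (-κ - 1) * (q : ℝ) ^ κ = 1 / q := by
    rw [← Real.rpow_add hq0]
    have : -κ - 1 + κ = -1 := by ring
    rw [this, Real.rpow_neg_one, one_div]
  set U : ℤ := ⌈(q : ℝ) * (y + Δ)⌉ with hU
  set D : ℤ := ⌊(q : ℝ) * y⌋ with hD
  have hU1 : (q : ℝ) * (y + Δ) ≤ U := Int.le_ceil _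
  have hU2 : (U : ℝ) < q * (y + Δ) + 1 := Int.ceil_lt_add_one _
  have hD1 : (D : ℝ) ≤ q * y := Int.floor_le _
  have hD2 : (q : ℝ) * y < D + 1 := Int.lt_floor_add_one _
  let A : Fin s → Finset ℤ := fun i => (hfin i (((U : ℝ) + 1) / q)).toFinset
  have hAm : ∀ i x, x ∈ A i ↔ f i x < ((U : ℝ) + 1) / q := by
    intro i x
    exact Set.Finite.mem_toFinset _
  have hAj : ∀ j : ℤ, j ≤ U → ∀ i x, (q : ℝ) * f i x < (j : ℝ) + 1 → x ∈ A i := by
    intro j hj i x h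
    rw [hAm, lt_div_iff₀ hq0]
    have : (j : ℝ) ≤ U := by exact_mod_cast hj
    linarith
  have hA : ∀ i x, (q : ℝ) * f i x < q * (y + Δ) → x ∈ A i := by
    intro i x h
    exact hAj U le_rfl i x (by linarith)
  have hRG : ∀ j : ℤ, D ≤ j → j ≤ U →
      (c - τ) * (q : ℝ) ^ (-κ - 1) * ((1 - τ) * (q * y) ^ κ) ≤ RG A (fun i x => (q : ℝ) * f i x) j ∧
      RG A (fun i x => (q : ℝ) * f i x) j ≤ (c + τ) * (q : ℝ) ^ (-κ - 1) * ((1 + τ) * (q * y) ^ κ) := by
    intro j hDj hjU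
    have hDj' : (D : ℝ) ≤ j := by exact_mod_cast hDj
    have hjU' : (j : ℝ) ≤ U := by exact_mod_cast hjU
    have hjn : (n0 : ℝ) ≤ j := by linarith
    have hj0 : 0 ≤ j := by
      have : (0 : ℝ) ≤ j := hn00.trans hjn
      exact_mod_cast this
    obtain ⟨n, rfl⟩ := Int.eq_ofNat_of_zero_le hj0
    have hn : n0 ≤ n := by
      have : (n0 : ℝ) ≤ (n : ℝ) := by exact_mod_cast hjn
      exact_mod_cast this
    have h1 := hn0 n hn A (fun i x h => hAj (n : ℤ) hjU i x (by push_cast; exact h))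
    rw [abs_le] at h1
    have hcast : ((n : ℤ) : ℝ) = (n : ℝ) := by push_cast; rfl
    rw [hcast] at hDj' hjU'
    have h2 := hy0 (q * y) (by linarith) n (by linarith) (by linarith)
    have hnκ : 0 ≤ (n : ℝ) ^ κ := by positivity
    constructor
    · have h3 : (c - τ) * (q : ℝ) ^ (-κ - 1) * ((1 - τ) * (q * y) ^ κ) ≤
          (c - τ) * (q : ℝ) ^ (-κ - 1) * (n : ℝ) ^ κ :=
        mul_le_mul_of_nonneg_left h2.1 (mul_nonneg (by linarith) hQ.le)
      have h4 : (c - τ) * (q : ℝ) ^ (-κ - 1) * (n : ℝ) ^ κ =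
          c * (q : ℝ) ^ (-κ - 1) * (n : ℝ) ^ κ - τ * (q : ℝ) ^ (-κ - 1) * (n : ℝ) ^ κ := by ring
      linarith [h1.1]
    · have h3 : (c + τ) * (q : ℝ) ^ (-κ - 1) * (n : ℝ) ^ κ ≤
          (c + τ) * (q : ℝ) ^ (-κ - 1) * ((1 + τ) * (q * y) ^ κ) :=
        mul_le_mul_of_nonneg_left h2.2 (mul_nonneg (by linarith) hQ.le)
      have h4 : (c + τ) * (q : ℝ) ^ (-κ - 1) * (n : ℝ) ^ κ =
          c * (q : ℝ) ^ (-κ - 1) * (n : ℝ) ^ κ + τ * (q : ℝ) ^ (-κ - 1) * (n : ℝ) ^ κ := by ring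
      linarith [h1.2]
  have hlo : ∀ t u : ℝ, t * (q : ℝ) ^ (-κ - 1) * (u * (q * y) ^ κ) = t * u / q * y ^ κ := by
    intro t u
    rw [hqyκ]
    calc t * (q : ℝ) ^ (-κ - 1) * (u * ((q : ℝ) ^ κ * y ^ κ)) =
        t * u * ((q : ℝ) ^ (-κ - 1) * (q : ℝ) ^ κ) * y ^ κ := by ring
      _ = t * u * (1 / q) * y ^ κ := by rw [hQq]
      _ = _ := by ring
  constructor
  · -- lower bound
    rw [le_div_iff₀ hyκ]
    set D' : ℤ := ⌈(q : ℝ) * y⌉ + 1 with hD'
    set U' : ℤ := ⌊(q : ℝ) * (y + Δ)⌋ - 1 with hU'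
    have e1 : (q : ℝ) * y ≤ ⌈(q : ℝ) * y⌉ := Int.le_ceil _
    have e2 : (⌈(q : ℝ) * y⌉ : ℝ) < q * y + 1 := Int.ceil_lt_add_one _
    have e3 : (⌊(q : ℝ) * (y + Δ)⌋ : ℝ) ≤ q * (y + Δ) := Int.floor_le _
    have e4 : (q : ℝ) * (y + Δ) < ⌊(q : ℝ) * (y + Δ)⌋ + 1 := Int.lt_floor_add_one _
    have h1 := lower f q y Δ A hf0 hq hA D' U' (by rw [hD']; push_cast; linarith)
      (by rw [hU']; push_cast; linarith)
    refine le_trans ?_ h1
    have h2 : ∀ j ∈ Icc D' U', (c - τ) * (1 - τ) / q * y ^ κ ≤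
        RG A (fun i x => (q : ℝ) * f i x) j := by
      intro j hj
      rw [mem_Icc] at hj
      rw [← hlo]
      refine (hRG j ?_ ?_).1
      · have : (D : ℝ) ≤ (j : ℝ) := by
          have h3 : (D' : ℝ) ≤ j := by exact_mod_cast hj.1
          rw [hD'] at h3
          push_cast at h3
          linarith
        exact_mod_cast this
      · have : (j : ℝ) ≤ (U : ℝ) := by
          have h3 : (j : ℝ) ≤ U' := by exact_mod_cast hj.2
          rw [hU'] at h3
          push_cast at h3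
          linarith
        exact_mod_cast this
    have h3 := card_nsmul_le_sum (Icc D' U') _ _ h2
    refine le_trans ?_ h3
    rw [nsmul_eq_mul, Int.card_Icc]
    have h4 : (q * Δ - 3 : ℝ) ≤ ((U' + 1 - D').toNat : ℝ) := by
      have h5 : ((U' + 1 - D' : ℤ) : ℝ) ≤ ((U' + 1 - D').toNat : ℝ) := by
        have := Int.self_le_toNat (U' + 1 - D')
        exact_mod_cast this
      refine le_trans ?_ h5
      rw [hU', hD']
      push_cast
      linarith
    have h5 : (Δ - 3 / q) * (c - τ) * (1 - τ) * y ^ κ =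
        (q * Δ - 3) * ((c - τ) * (1 - τ) / q * y ^ κ) := by
      field_simp
    rw [h5]
    apply mul_le_mul_of_nonneg_right h4
    have : 0 ≤ (c - τ) * (1 - τ) := mul_nonneg (by linarith) (by linarith)
    positivity
  · -- upper bound
    rw [div_le_iff₀ hyκ]
    have h1 := upper f q y Δ A hf0 hq hA D U hD1 hU1
    refine h1.trans ?_
    have h2 : ∀ j ∈ Icc D U, RG A (fun i x => (q : ℝ) * f i x) j ≤
        (c + τ) * (1 + τ) / q * y ^ κ := by
      intro j hj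
      rw [mem_Icc] at hj
      rw [← hlo]
      exact (hRG j hj.1 hj.2).2
    have h3 := sum_le_card_nsmul (Icc D U) _ _ h2
    refine h3.trans ?_
    rw [nsmul_eq_mul, Int.card_Icc]
    have h4 : ((U + 1 - D).toNat : ℝ) ≤ q * Δ + 3 := by
      have hDU : D ≤ U := by
        have : (D : ℝ) ≤ U := by
          refine hD1.trans (le_trans ?_ hU1)
          exact mul_le_mul_of_nonneg_left (by linarith) hq0.le
        exact_mod_cast this
      have h5 : (((U + 1 - D).toNat : ℤ) : ℝ) = ((U + 1 - D : ℤ) : ℝ) := by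
        rw [Int.toNat_of_nonneg (by omega)]
      have h6 : ((U + 1 - D).toNat : ℝ) = (((U + 1 - D).toNat : ℤ) : ℝ) := by push_cast; rfl
      rw [h6, h5]
      push_cast
      linarith
    have h5 : (Δ + 3 / q) * (c + τ) * (1 + τ) * y ^ κ =
        (q * Δ + 3) * ((c + τ) * (1 + τ) / q * y ^ κ) := by
      field_simp
    rw [h5]
    apply mul_le_mul_of_nonneg_right h4
    positivity

/-- AFIN -/
theorem afin : S_AFIN := by
  intro s f c κ hc hf0 hfin hasy Δ hΔ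
  -- choice of `q` and `τ`
  have hlimq : ∀ σ : ℝ, Tendsto (fun q : ℕ => (Δ + σ / q) * c) atTop (𝓝 (Δ * c)) := by
    intro σ
    have h1 : Tendsto (fun q : ℕ => σ / (q : ℝ)) atTop (𝓝 0) := tendsto_const_div_atTop_nhds_zero_nat σ
    have h2 : Tendsto (fun q : ℕ => (Δ + σ / q) * c) atTop (𝓝 ((Δ + 0) * c)) :=
      (h1.const_add Δ).mul_const c
    rwa [add_zero] at h2
  have hq3 : ∀ᶠ q : ℕ in atTop, 3 < (q : ℝ) * Δ := by
    have h1 : Tendsto (fun q : ℕ => (q : ℝ) * Δ) atTop atTop :=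
      tendsto_natCast_atTop_atTop.atTop_mul_const hΔ
    exact h1.eventually_gt_atTop 3
  rw [tendsto_order]
  constructor
  · intro b hb
    have h1 := (hlimq (-3)).eventually_const_lt hb
    obtain ⟨q, ⟨hq1, hq2⟩, hq3⟩ := ((h1.and hq3).and (eventually_ge_atTop 1)).exists
    have hcont : Tendsto (fun τ : ℝ => (Δ - 3 / q) * (c - τ) * (1 - τ)) (𝓝[>] 0)
        (𝓝 ((Δ - 3 / q) * (c - 0) * (1 - 0))) := by
      apply Tendsto.mono_left _ nhdsWithin_le_nhds
      apply Continuous.tendsto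
      fun_prop
    have hlt : b < (Δ - 3 / q) * (c - 0) * (1 - 0) := by
      have : (Δ - 3 / q) * (c - 0) * (1 - 0) = (Δ + -3 / q) * c := by ring
      rw [this]
      exact hq1
    have h2 := hcont.eventually_const_lt hlt
    have h3 : ∀ᶠ τ : ℝ in 𝓝[>] 0, τ < min c 1 :=
      Filter.Eventually.filter_mono nhdsWithin_le_nhds (eventually_lt_nhds (lt_min hc one_pos))
    obtain ⟨τ, ⟨hτ1, hτ2⟩, hτ3⟩ := ((h2.and h3).and self_mem_nhdsWithin).exists
    filter_upwards [bounds f c κ hc hf0 hfin q hq3 (hasy q hq3) Δ hΔ τ hτ3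
      (lt_of_lt_of_le hτ2 (min_le_left _ _)) (lt_of_lt_of_le hτ2 (min_le_right _ _)) hq2] with y hy
    exact lt_of_lt_of_le hτ1 hy.1
  · intro b hb
    have h1 := (hlimq 3).eventually_lt_const hb
    obtain ⟨q, ⟨hq1, hq2⟩, hq3⟩ := ((h1.and hq3).and (eventually_ge_atTop 1)).exists
    have hcont : Tendsto (fun τ : ℝ => (Δ + 3 / q) * (c + τ) * (1 + τ)) (𝓝[>] 0)
        (𝓝 ((Δ + 3 / q) * (c + 0) * (1 + 0))) := by
      apply Tendsto.mono_left _ nhdsWithin_le_nhds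
      apply Continuous.tendsto
      fun_prop
    have hlt : (Δ + 3 / q) * (c + 0) * (1 + 0) < b := by
      have : (Δ + 3 / q) * (c + 0) * (1 + 0) = (Δ + 3 / q) * c := by ring
      rw [this]
      exact hq1
    have h2 := hcont.eventually_lt_const hlt
    have h3 : ∀ᶠ τ : ℝ in 𝓝[>] 0, τ < min c 1 :=
      Filter.Eventually.filter_mono nhdsWithin_le_nhds (eventually_lt_nhds (lt_min hc one_pos))
    obtain ⟨τ, ⟨hτ1, hτ2⟩, hτ3⟩ := ((h2.and h3).and self_mem_nhdsWithin).exists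
    filter_upwards [bounds f c κ hc hf0 hfin q hq3 (hasy q hq3) Δ hΔ τ hτ3
      (lt_of_lt_of_le hτ2 (min_le_left _ _)) (lt_of_lt_of_le hτ2 (min_le_right _ _)) hq2] with y hy
    exact lt_of_le_of_lt hy.2 hτ1

end Pool.Agent.N619.AD
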