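import Pool.Agent.N580.AU.Stm2
import Pool.Agent.N907.AU_HOL

/-!
# AU/HOLB (project of helper580, leaf of helper619): interpolation between the exponents `2 / 3` and
`19 / 20`, general form
-/

set_option autoImplicit false

namespace Pool.Agent.N619.AU

open Finset
open Pool.Agent.N580.AU (HOLB)
open Pool.Agent.N907.AU (hoelder logC)

theorem holb : HOLB := by
  intro I _ m G k r T ω hm hG ht hω hω' hB hA
  rcases eq_or_lt_of_le hω with h | h
  · subst h
    refine hB.trans ?_
    have h1 : Real.exp (-(r : ℝ) / 18) ≤ 1 := by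
      rw [Real.exp_le_one_iff]
      have : (0 : ℝ) ≤ r := Nat.cast_nonneg _
      linarith
    nlinarith
  · have ht0 : (0 : ℝ) < T := by exact_mod_cast ht
    set l := Real.log (T : ℝ) with hl
    have hl0 : 0 ≤ l := Real.log_nonneg (by exact_mod_cast ht)
    have hk0 : (0 : ℝ) ≤ k := Nat.cast_nonneg _
    have hr : 0 < r := by
      rcases Nat.eq_zero_or_pos r with h0 | h0
      · exfalso
        rw [h0] at hω'
        simp at hω'
        linarith
      · exact h0
    have hr0 : (0 : ℝ) < r := by exact_mod_cast hr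
    set lam : ℝ := (ω - 2) * (20 / 17) with hlam
    have hlam0 : 0 < lam := by
      rw [hlam]
      nlinarith
    have hle : lam * (2 * r + 120 * (k + l)) ≤ 20 / 17 * r := by
      have h1 : ω - 2 ≤ r / (2 * r + 120 * (k + l)) := by linarith
      have h2 : 0 < 2 * r + 120 * (k + l) := by positivity
      have h3 := (le_div_iff₀ h2).1 h1
      rw [hlam]
      nlinarith
    have hkl : 0 ≤ lam * (120 * (k + l)) := by positivity
    have hlr : lam * r ≤ 10 / 17 * r := by nlinarith
    have hlam1 : lam ≤ 10 / 17 := le_of_mul_le_mul_right hlr hr0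
    have hA0 : 0 < (T : ℝ) ^ 3 * (G * (90 * 2) ^ k) := by positivity
    have hB0 : 0 < Real.exp (-(r : ℝ) / 18) * G := by positivity
    have hH := hoelder m hm hA0 hB0 hlam0.le (by linarith : lam ≤ 1)
      (by rw [hlam]; ring : ω / 3 = (19 / 20 : ℝ) * lam + 2 / 3 * (1 - lam)) (by linarith) hA hB
    refine hH.trans ?_
    rw [Real.rpow_def_of_pos hA0, Real.rpow_def_of_pos hB0, ← Real.exp_add,
      Real.log_mul (by positivity) (by positivity), Real.log_mul hG.ne' (by positivity),
      Real.log_pow, Real.log_pow, Real.log_mul (Real.exp_pos _).ne' hG.ne', Real.log_exp]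
    rw [← Real.le_log_iff_exp_le hG]
    have hC : Real.log (90 * 2) ≤ 5.5452 := by
      have h1 := logC (le_refl 1)
      norm_num at h1 ⊢
      exact h1
    rw [← hl]
    push_cast
    have e1 : lam * (3 * l + k * Real.log (90 * 2)) ≤ lam * (5.5452 * (k + l)) := by
      apply mul_le_mul_of_nonneg_left _ hlam0.le
      have h1 : k * Real.log (90 * 2) ≤ k * 5.5452 := mul_le_mul_of_nonneg_left hC hk0
      linarith
    have e2 : lam * (5.5452 * (k + l)) ≤ 5.5452 / 120 * (20 / 17 * r - 2 * (lam * r)) := by
      linarith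
    have e3 : 0 ≤ lam * r := by positivity
    linarith

end Pool.Agent.N619.AU
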