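import Pool.Agent.N979.P1.Stm

/-!
# PROJECT P1 (helper979), leaf FINP (helper619): conclusion of the general theorem
-/

set_option autoImplicit false

namespace Pool.Agent.N619.P1_FINP

open Pool.Agent.N979.P1 Pool.Agent.H241R3.FV Pool.Agent.N526.CP

theorem main (h1 : S_MAINP) (h2 : S_LIMP) : S_FINP := by
  intro k T hk M _ _ S hb
  refine ENNReal.le_of_forall_pos_le_add fun ε hε _ => ?_
  obtain ⟨s, hs0, hs1, c₀, hc₀, h⟩ := h2 k hk.lip (ε : ℝ) (by exact_mod_cast hε)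
  obtain ⟨c, hc, hc0, hc1, hv⟩ := h1 k T hk M S hb s hs0 hs1 c₀ hc₀
  have h3 := h c hc hc0 hc1
  have h4 : 2 * (∫ v in (0 : ℝ)..Real.pi,
      k !₂[2 / Real.pi * Real.cos v, 2 / Real.pi * Real.sin v]) ≤ Vk k s c + ε := by linarith
  refine (ENNReal.ofReal_le_ofReal h4).trans (ENNReal.ofReal_add_le.trans ?_)
  rw [ENNReal.ofReal_coe_nnreal]
  gcongr

end Pool.Agent.N619.P1_FINP
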