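import Pool.Agent.N502.TM.Stm

/-!
# Project TM (helper502), leaf CSQ: Cauchy-Schwarz over lines (by helper619)
-/

set_option autoImplicit false

namespace Pool.Agent.N619.TM_CSQ

open MeasureTheory Filter Topology
open Set hiding ext
open scoped ENNReal Real InnerProductSpace
open Pool.Agent.N502.TM

lemma act_inv_act {d : ℕ} (g : O d) (x : V d) : act g⁻¹ (act g x) = x := by
  unfold act
  have h : ((g⁻¹ : O d) : Matrix (Fin d) (Fin d) ℝ) * (g : Matrix (Fin d) (Fin d) ℝ) = 1 := by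
    rw [← Submonoid.coe_mul, inv_mul_cancel, Submonoid.coe_one]
  rw [Matrix.toLpLin_apply, Matrix.toLpLin_apply]
  simp only [Matrix.mulVec_mulVec, h, Matrix.one_mulVec, WithLp.toLp_ofLp]

lemma act_norm {d : ℕ} (g : O d) (x : V d) : ‖act g x‖ = ‖x‖ := by
  have h : star (g : Matrix (Fin d) (Fin d) ℝ) * (g : Matrix (Fin d) (Fin d) ℝ) = 1 :=
    Matrix.mem_unitaryGroup_iff'.1 g.2
  have h1 : ⟪act g x, act g x⟫_ℝ = ⟪x, x⟫_ℝ := by
    unfold act
    rw [← LinearMap.adjoint_inner_right, ← Matrix.toEuclideanLin_conjTranspose_eq_adjoint]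
    congr 1
    rw [Matrix.toLpLin_apply, Matrix.toLpLin_apply]
    rw [← Matrix.star_eq_conjTranspose]
    simp [Matrix.mulVec_mulVec, h]
  rw [real_inner_self_eq_norm_sq, real_inner_self_eq_norm_sq] at h1
  exact (sq_eq_sq₀ (norm_nonneg _) (norm_nonneg _)).1 h1

/-- the isometry -/
noncomputable def actI {d : ℕ} (g : O d) : V d →ₗᵢ[ℝ] V d where
  toLinearMap := Matrix.toEuclideanLin (g : Matrix (Fin d) (Fin d) ℝ)
  norm_map' := act_norm g

lemma act_mp {d : ℕ} (g : O d) : MeasurePreserving (act g : V d → V d) := by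
  have h := ((actI g).toLinearIsometryEquiv rfl).measurePreserving
  exact h

/-- the splitting -/
lemma ext_mp (m : ℕ) : MeasurePreserving (fun p : V m × ℝ => ext p.1 p.2)
    ((volume : Measure (V m)).prod volume) volume := by
  have h1 : MeasurePreserving (MeasurableEquiv.piFinSuccAbove (fun _ : Fin (m + 1) => ℝ)
      (Fin.last m)).symm := (volume_preserving_piFinSuccAbove (fun _ : Fin (m + 1) => ℝ)
      (Fin.last m)).symm _
  have h2 : MeasurePreserving (@WithLp.toLp 2 (Fin (m + 1) → ℝ)) := PiLp.volume_preserving_toLp _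
  have h3 : MeasurePreserving (@WithLp.ofLp 2 (Fin m → ℝ)) := PiLp.volume_preserving_ofLp _
  have h4 : MeasurePreserving (Prod.swap : (Fin m → ℝ) × ℝ → ℝ × (Fin m → ℝ))
      ((volume : Measure (Fin m → ℝ)).prod (volume : Measure ℝ))
      ((volume : Measure ℝ).prod (volume : Measure (Fin m → ℝ))) := Measure.measurePreserving_swap
  have h5 : MeasurePreserving (Prod.map (@WithLp.ofLp 2 (Fin m → ℝ)) (id : ℝ → ℝ))
      ((volume : Measure (V m)).prod volume)
      ((volume : Measure (Fin m → ℝ)).prod (volume : Measure ℝ)) :=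
    h3.prod (MeasurePreserving.id volume)
  have h6 := h2.comp (h1.comp (h4.comp h5))
  suffices h7 : (fun p : V m × ℝ => ext p.1 p.2) = @WithLp.toLp 2 (Fin (m + 1) → ℝ) ∘
      (MeasurableEquiv.piFinSuccAbove (fun _ : Fin (m + 1) => ℝ) (Fin.last m)).symm ∘
      (Prod.swap : (Fin m → ℝ) × ℝ → ℝ × (Fin m → ℝ)) ∘
      Prod.map (@WithLp.ofLp 2 (Fin m → ℝ)) (id : ℝ → ℝ) by
    rw [h7]
    exact h6
  funext p
  simp only [ext, Function.comp_apply, Prod.map, id, Prod.swap]
  congr 1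
  simp only [MeasurableEquiv.piFinSuccAbove]
  funext i
  refine Fin.lastCases ?_ (fun j => ?_) i
  · simp [Fin.insertNthEquiv]
  · simp [Fin.insertNthEquiv]

lemma ext_cont (m : ℕ) : Continuous (fun p : V m × ℝ => ext p.1 p.2) := by
  unfold ext
  refine (PiLp.continuous_toLp 2 _).comp (continuous_pi fun i => ?_)
  refine Fin.lastCases ?_ (fun j => ?_) i
  · simpa using continuous_snd
  · simp only [Fin.snoc_castSucc]
    exact ((EuclideanSpace.proj (𝕜 := ℝ) j).continuous).comp continuous_fst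

/-- Cauchy-Schwarz -/
lemma cs {α : Type*} [MeasurableSpace α] (μ : Measure α) (F : α → ℝ≥0∞) (hF : Measurable F)
    (S : Set α) (hS : MeasurableSet S) (h0 : ∀ y, y ∉ S → F y = 0) :
    (∫⁻ y, F y ∂μ) ^ 2 ≤ (∫⁻ y, F y ^ 2 ∂μ) * μ S := by
  have h1 : ∫⁻ y, F y ∂μ = ∫⁻ y, (F * S.indicator (1 : α → ℝ≥0∞)) y ∂μ := by
    refine lintegral_congr fun y => ?_
    by_cases hy : y ∈ S
    · simp [hy]
    · simp [hy, h0 y hy]
  have h2 := ENNReal.lintegral_mul_le_Lp_mul_Lq μ Real.HolderConjugate.two_two hF.aemeasurable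
    (g := S.indicator (1 : α → ℝ≥0∞)) (measurable_one.indicator hS).aemeasurable
  have h3 : ∫⁻ y, (S.indicator (1 : α → ℝ≥0∞) y) ^ (2 : ℝ) ∂μ = μ S := by
    rw [← lintegral_indicator_one hS]
    refine lintegral_congr fun y => ?_
    by_cases hy : y ∈ S
    · simp [hy]
    · simp [hy]
  rw [h1]
  calc (∫⁻ y, (F * S.indicator (1 : α → ℝ≥0∞)) y ∂μ) ^ 2
      ≤ ((∫⁻ y, F y ^ (2 : ℝ) ∂μ) ^ (1 / (2 : ℝ)) * (μ S) ^ (1 / (2 : ℝ))) ^ 2 := by
        rw [h3] at h2
        gcongr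
    _ = (∫⁻ y, F y ^ 2 ∂μ) * μ S := by
        rw [mul_pow, ← ENNReal.rpow_natCast, ← ENNReal.rpow_natCast, ← ENNReal.rpow_mul,
          ← ENNReal.rpow_mul]
        norm_num

lemma sh_compact {m : ℕ} (g : O (m + 1)) {K : Set (V (m + 1))} (hK : IsCompact K) :
    IsCompact (sh g K) := by
  have h1 : sh g K = (fun x => pr (Nat.le_succ m) (act g⁻¹ x)) '' K := by
    ext y
    constructor
    · rintro ⟨t, ht⟩
      refine ⟨_, ht, ?_⟩
      simp only [act_inv_act]
      ext j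
      simp [pr, Pool.Agent.N502.TM.ext, Fin.snoc]
      rfl
    · rintro ⟨x, hx, rfl⟩
      refine ⟨act g⁻¹ x (Fin.last m), ?_⟩
      have h2 : Pool.Agent.N502.TM.ext (pr (Nat.le_succ m) (act g⁻¹ x)) (act g⁻¹ x (Fin.last m))
          = act g⁻¹ x := by
        ext i
        refine Fin.lastCases ?_ (fun j => ?_) i
        · simp [Pool.Agent.N502.TM.ext]
        · simp only [Pool.Agent.N502.TM.ext, pr, Fin.snoc_castSucc]
          rfl
      rw [h2]
      have h3 := act_inv_act g⁻¹ x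
      rw [inv_inv] at h3
      rw [h3]
      exact hx
  rw [h1]
  refine hK.image ?_
  have h4 : Continuous (act g⁻¹ : V (m + 1) → V (m + 1)) := (actI g⁻¹).continuous
  unfold pr
  refine (PiLp.continuous_toLp 2 _).comp (continuous_pi fun i => ?_)
  exact ((EuclideanSpace.proj (𝕜 := ℝ) _).continuous).comp h4

theorem main : S_CSQ := by
  intro m ν hν K f hK hf h0
  unfold QQ
  have hmp : ∀ g : O (m + 1), MeasurePreserving (fun p : V m × ℝ => act g (ext p.1 p.2))
      ((volume : Measure (V m)).prod volume) volume := fun g => (act_mp g).comp (ext_mp m)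
  have hfm : ∀ g : O (m + 1), Measurable fun p : V m × ℝ => f (act g (ext p.1 p.2)) :=
    fun g => hf.comp (hmp g).measurable
  have hint : ∀ g : O (m + 1), ∫⁻ x, f x = ∫⁻ y : V m, ∫⁻ t : ℝ, f (act g (ext y t)) := by
    intro g
    rw [← (hmp g).lintegral_comp hf, lintegral_prod _ (hfm g).aemeasurable]
  have hF : ∀ g : O (m + 1), Measurable fun y : V m => ∫⁻ t : ℝ, f (act g (ext y t)) :=
    fun g => (hfm g).lintegral_prod_right'
  have key : ∀ g : O (m + 1), (∫⁻ x, f x) ^ 2 * (volume (sh g K))⁻¹ ≤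
      ∫⁻ y : V m, (∫⁻ t : ℝ, f (act g (ext y t))) ^ 2 := by
    intro g
    have h1 := cs (volume : Measure (V m)) (fun y : V m => ∫⁻ t : ℝ, f (act g (ext y t))) (hF g)
      (sh g K) (sh_compact g hK).measurableSet (by
        intro y hy
        have h2 : ∀ t : ℝ, f (act g (ext y t)) = 0 := fun t => h0 _ fun h => hy ⟨t, h⟩
        simp [h2])
    rw [← hint g] at h1
    exact ENNReal.div_le_of_le_mul h1
  calc (∫⁻ x, f x) ^ 2 * ∫⁻ g, (volume (sh g K))⁻¹ ∂ν
      ≤ ∫⁻ g, (∫⁻ x, f x) ^ 2 * (volume (sh g K))⁻¹ ∂ν := lintegral_const_mul_le _ _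
    _ ≤ _ := lintegral_mono key

end Pool.Agent.N619.TM_CSQ

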