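import Pool.Agent.N894.WF.DefsG

set_option autoImplicit false

/-!
# Project WF, leaf G1: graph products, the lamplighter step
-/

namespace Pool.Agent.N619.WF

open N894.WF

/-- lamplighter group -/
@[ext] structure LW (P W : Type) where
  f : P → W
  h : P

section LW

variable {P W : Type} [Group P] [AddCommGroup W]

instance : Mul (LW P W) := ⟨fun x y => ⟨fun z => x.f z + y.f (x.h⁻¹ * z), x.h * y.h⟩⟩
instance : One (LW P W) := ⟨⟨fun _ => 0, 1⟩⟩
instance : Inv (LW P W) := ⟨fun x => ⟨fun z => - x.f (x.h * z), x.h⁻¹⟩⟩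

theorem mul_f (x y : LW P W) (z : P) : (x * y).f z = x.f z + y.f (x.h⁻¹ * z) := rfl
theorem mul_h (x y : LW P W) : (x * y).h = x.h * y.h := rfl
theorem one_f (z : P) : (1 : LW P W).f z = 0 := rfl
theorem one_h : (1 : LW P W).h = 1 := rfl
theorem inv_f (x : LW P W) (z : P) : (x⁻¹).f z = - x.f (x.h * z) := rfl
theorem inv_h (x : LW P W) : (x⁻¹).h = x.h⁻¹ := rfl

instance : Group (LW P W) :=
  Group.ofLeftAxioms
    (by
      intro x y w
      ext z
      · rw [mul_f, mul_f, mul_f, mul_f, mul_h, mul_inv_rev, mul_assoc, add_assoc]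
      · rw [mul_h, mul_h, mul_h, mul_h, mul_assoc])
    (by
      intro x
      ext z
      · rw [mul_f, one_f, one_h, inv_one, one_mul, zero_add]
      · rw [mul_h, one_h, one_mul])
    (by
      intro x
      ext z
      · rw [mul_f, inv_f, inv_h, inv_inv, one_f, neg_add_cancel]
      · rw [mul_h, inv_h, inv_mul_cancel, one_h])

instance [Finite P] [Finite W] : Finite (LW P W) := by
  apply Finite.of_injective (fun x : LW P W => (x.f, x.h))
  intro x y hxy
  simp only [Prod.mk.injEq] at hxy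
  exact LW.ext hxy.1 hxy.2

/-- the projection -/
def rt : LW P W →* P where
  toFun x := x.h
  map_one' := rfl
  map_mul' _ _ := rfl

/-- the inclusion -/
def il : P →* LW P W where
  toFun x := ⟨fun _ => 0, x⟩
  map_one' := rfl
  map_mul' x y := by
    ext z
    · rw [mul_f, add_zero]
    · rfl

theorem il_f (x z : P) : (il (W := W) x).f z = 0 := rfl
theorem il_h (x : P) : (il (W := W) x).h = x := rfl

end LW

open Classical in
/-- integer valued sum along a word -/
noncomputable def Dd {V : Type} {Γ : V → Type} {P : Type} [Group P] (φ : (v : V) → Γ v → P) (v : V)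
    (n : P → ℤ) : P → List (Σ v, Γ v) → ℤ
  | _, [] => 0
  | h, y :: l => (if y.1 = v then n (h * φ y.1 y.2) - n h else 0) + Dd φ v n (h * φ y.1 y.2) l

theorem ev_cons {V : Type} {Γ : V → Type} {P : Type} [Group P] (φ : (v : V) → Γ v → P)
    (y : Σ v, Γ v) (l : List (Σ v, Γ v)) : ev φ (y :: l) = φ y.1 y.2 * ev φ l := by
  simp [ev]

theorem ev_app {V : Type} {Γ : V → Type} {P : Type} [Group P] (φ : (v : V) → Γ v → P)
    (l l' : List (Σ v, Γ v)) : ev φ (l ++ l') = ev φ l * ev φ l' := by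
  simp [ev]

theorem ev_nil {V : Type} {Γ : V → Type} {P : Type} [Group P] (φ : (v : V) → Γ v → P) :
    ev φ [] = 1 := by
  simp [ev]

theorem Dd_app {V : Type} {Γ : V → Type} {P : Type} [Group P] (φ : (v : V) → Γ v → P) (v : V)
    (n : P → ℤ) (p l : List (Σ v, Γ v)) (hp : ∀ y ∈ p, y.1 ≠ v) (h : P) :
    Dd φ v n h (p ++ l) = Dd φ v n (h * ev φ p) l := by
  induction p generalizing h with
  | nil => rw [ev_nil, mul_one, List.nil_append]
  | cons y p ih =>
    rw [List.cons_append, Dd, if_neg (hp y (List.mem_cons_self ..)), zero_add, ih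
      (fun z hz => hp z (List.mem_cons_of_mem _ hz)), ev_cons, mul_assoc]

theorem Dd_bound {V : Type} {Γ : V → Type} {P : Type} [Group P] (φ : (v : V) → Γ v → P) (v : V)
    (n : P → ℤ) (M : ℤ) (hn0 : ∀ y, 0 ≤ n y) (hnM : ∀ y, n y ≤ M) (l : List (Σ v, Γ v)) (h : P)
    (hl : ∀ u y q', l = u ++ y :: q' → y.1 = v → n (h * ev φ u) = 0) :
    0 ≤ Dd φ v n h l ∧ Dd φ v n h l ≤ l.length * M := by
  induction l generalizing h with
  | nil => simp [Dd]
  | cons y l ih =>
    have hM : 0 ≤ M := (hn0 1).trans (hnM 1)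
    obtain ⟨h1, h2⟩ := ih (h * φ y.1 y.2) (by
      intro u y' q' he hy'
      have := hl (y :: u) y' q' (by rw [he, List.cons_append]) hy'
      rwa [ev_cons, ← mul_assoc] at this)
    rw [Dd, List.length_cons]
    push_cast
    by_cases hy : y.1 = v
    · rw [if_pos hy]
      have h3 := hl [] y l rfl hy
      rw [ev_nil, mul_one] at h3
      have h4 := hn0 (h * φ y.1 y.2)
      have h5 := hnM (h * φ y.1 y.2)
      constructor <;> nlinarith
    · rw [if_neg hy]
      constructor <;> nlinarith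

section Main

variable {V : Type} (X : SimpleGraph V) {Γ : V → Type} [∀ v, Group (Γ v)]
  {P : Type} [Group P] (φ : (v : V) → Γ v → P) (I : Type) (m : ℕ) (j : I → V)

open Classical in
/-- the twisting elements -/
noncomputable def tau (v : V) : LW P (I → ZMod m) :=
  ⟨fun z u => if z ∈ Lbar φ (X.neighborSet v) ∧ j u = v then 1 else 0, 1⟩

/-- the new maps -/
noncomputable def ph (v : V) (a : Γ v) : LW P (I → ZMod m) :=
  (tau X φ I m j v)⁻¹ * il (φ v a) * tau X φ I m j v

theorem ph_h (v : V) (a : Γ v) : (ph X φ I m j v a).h = φ v a := by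
  unfold ph
  rw [mul_h, mul_h, inv_h, il_h]
  show (1 : P)⁻¹ * φ v a * 1 = φ v a
  rw [inv_one, one_mul, mul_one]

open Classical in
theorem ph_f (v : V) (a : Γ v) (z : P) (u : I) : (ph X φ I m j v a).f z u =
    (if (φ v a)⁻¹ * z ∈ Lbar φ (X.neighborSet v) ∧ j u = v then (1 : ZMod m) else 0) -
      (if z ∈ Lbar φ (X.neighborSet v) ∧ j u = v then 1 else 0) := by
  unfold ph
  rw [mul_f, mul_f, inv_f, il_f, mul_h, inv_h, il_h]
  have e1 : (tau X φ I m j v).h = (1 : P) := rfl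
  rw [e1, inv_one, one_mul, one_mul, add_zero]
  show -(if z ∈ Lbar φ (X.neighborSet v) ∧ j u = v then (1 : ZMod m) else 0) +
    (if (φ v a)⁻¹ * z ∈ Lbar φ (X.neighborSet v) ∧ j u = v then (1 : ZMod m) else 0) = _
  ring

theorem ph_err (v : V) (a b : Γ v) : ph X φ I m j v a * ph X φ I m j v b *
    (ph X φ I m j v (a * b))⁻¹ =
    (tau X φ I m j v)⁻¹ * il (φ v a * φ v b * (φ v (a * b))⁻¹) * tau X φ I m j v := by
  unfold ph
  rw [map_mul, map_mul, map_inv]
  group

theorem ph_comm (hc : ∀ u v, X.Adj u v → ∀ (a : Γ u) (b : Γ v), Commute (φ u a) (φ v b))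
    (u v : V) (huv : X.Adj u v) (a : Γ u) (b : Γ v) :
    Commute (ph X φ I m j u a) (ph X φ I m j v b) := by
  classical
  have hu : φ u a ∈ Lbar φ (X.neighborSet v) :=
    Subgroup.subset_closure ⟨u, huv.symm, a, rfl⟩
  have hv : φ v b ∈ Lbar φ (X.neighborSet u) :=
    Subgroup.subset_closure ⟨v, huv, b, rfl⟩
  have hcc : φ u a * φ v b = φ v b * φ u a := hc u v huv a b
  have hci : (φ u a)⁻¹ * (φ v b)⁻¹ = (φ v b)⁻¹ * (φ u a)⁻¹ := by
    rw [← mul_inv_rev, ← mul_inv_rev, hcc]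
  have k1 : ∀ z, (φ u a)⁻¹ * z ∈ Lbar φ (X.neighborSet v) ↔ z ∈ Lbar φ (X.neighborSet v) :=
    fun z => Subgroup.mul_mem_cancel_left _ (Subgroup.inv_mem _ hu)
  have k2 : ∀ z, (φ v b)⁻¹ * z ∈ Lbar φ (X.neighborSet u) ↔ z ∈ Lbar φ (X.neighborSet u) :=
    fun z => Subgroup.mul_mem_cancel_left _ (Subgroup.inv_mem _ hv)
  show ph X φ I m j u a * ph X φ I m j v b = ph X φ I m j v b * ph X φ I m j u a
  ext z
  · rename_i w
    rw [mul_f, mul_f, Pi.add_apply, Pi.add_apply, ph_h, ph_h, ph_f, ph_f, ph_f, ph_f, k1, k2,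
      ← mul_assoc (φ v b)⁻¹, ← hci, mul_assoc, k1, ← mul_assoc, hci, mul_assoc, k2]
    ring
  · rw [mul_h, mul_h, ph_h, ph_h, hcc]

theorem ev_h (l : List (Σ v, Γ v)) : (ev (ph X φ I m j) l).h = ev φ l := by
  induction l with
  | nil => rw [ev_nil, ev_nil]; rfl
  | cons y l ih => rw [ev_cons, ev_cons, mul_h, ph_h, ih]

open Classical in
theorem formula [Fintype P] (v : V) (v0 : I) (hj : j v0 = v) (A : P → Prop) (n : P → ℤ)
    (hn : ∀ y, n y = ∑ z, if A z then (if y⁻¹ * z ∈ Lbar φ (X.neighborSet v) then 1 else 0) else 0)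
    (l : List (Σ v, Γ v)) (h : P) :
    ∑ z, (if A z then (ev (ph X φ I m j) l).f (h⁻¹ * z) v0 else 0) =
      ((Dd φ v n h l : ℤ) : ZMod m) := by
  induction l generalizing h with
  | nil =>
    rw [ev_nil, Dd, Int.cast_zero]
    apply Finset.sum_eq_zero
    intro z _
    split_ifs <;> rfl
  | cons y l ih =>
    rw [ev_cons, Dd]
    push_cast
    rw [← ih (h * φ y.1 y.2)]
    have e1 : ∀ z, (if A z then (ph X φ I m j y.1 y.2 * ev (ph X φ I m j) l).f (h⁻¹ * z) v0
        else 0) = (if A z then (ph X φ I m j y.1 y.2).f (h⁻¹ * z) v0 else 0) +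
        (if A z then (ev (ph X φ I m j) l).f ((h * φ y.1 y.2)⁻¹ * z) v0 else 0) := by
      intro z
      split_ifs
      · rw [mul_f, Pi.add_apply, ph_h, mul_inv_rev, mul_assoc]
      · rw [add_zero]
    rw [Finset.sum_congr rfl fun z _ => e1 z, Finset.sum_add_distrib]
    congr 1
    obtain ⟨yv, ya⟩ := y
    by_cases hy : yv = v
    · subst hy
      rw [if_pos rfl, hn, hn]
      push_cast
      rw [← Finset.sum_sub_distrib]
      apply Finset.sum_congr rfl
      intro z _
      by_cases hA : A z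
      · rw [if_pos hA, if_pos hA, if_pos hA, ph_f]
        simp only [hj, and_true, mul_inv_rev, mul_assoc]
      · rw [if_neg hA, if_neg hA, if_neg hA, sub_zero]
    · rw [if_neg hy]
      apply Finset.sum_eq_zero
      intro z _
      split_ifs
      · rw [ph_f, if_neg, if_neg, sub_zero]
        · rintro ⟨-, h2⟩
          exact hy (h2.symm.trans hj)
        · rintro ⟨-, h2⟩
          exact hy (h2.symm.trans hj)
      · rfl

end Main

open Classical in
theorem shift {P R : Type} [Group P] [Fintype P] [AddCommMonoid R] (C : Subgroup P) (c : P)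
    (hc : c ∈ C) (y : P) (G : P → R) :
    ∑ z, (if z * y⁻¹ ∈ C then G (c⁻¹ * z) else 0) = ∑ z, if z * y⁻¹ ∈ C then G z else 0 := by
  refine (Equiv.sum_comp (Equiv.mulLeft c) _).symm.trans (Finset.sum_congr rfl fun z _ => ?_)
  simp only [Equiv.coe_mulLeft, inv_mul_cancel_left, mul_assoc]
  rw [C.mul_mem_cancel_left hc]

open Classical in
/-- the first subgroup -/
noncomputable def H1 {P : Type} [Group P] [Fintype P] {I : Type} (m : ℕ) (C : Subgroup P) (v0 : I) :
    Subgroup (LW P (I → ZMod m)) where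
  carrier := {g | g.h ∈ C ∧ ∀ y, ∑ z, (if z * y⁻¹ ∈ C then g.f z v0 else 0) = 0}
  mul_mem' := by
    rintro g g' ⟨h1, h2⟩ ⟨h3, h4⟩
    refine ⟨C.mul_mem h1 h3, fun y => ?_⟩
    have e1 : ∀ z, (if z * y⁻¹ ∈ C then (g * g').f z v0 else 0) =
        (if z * y⁻¹ ∈ C then g.f z v0 else 0) + (if z * y⁻¹ ∈ C then g'.f (g.h⁻¹ * z) v0 else 0) := by
      intro z
      split_ifs
      · rfl
      · rw [add_zero]
    rw [Finset.sum_congr rfl fun z _ => e1 z, Finset.sum_add_distrib, h2, zero_add,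
      shift C g.h h1 y (fun z => g'.f z v0), h4]
  one_mem' := by
    refine ⟨C.one_mem, fun y => Finset.sum_eq_zero fun z _ => ?_⟩
    split_ifs <;> rfl
  inv_mem' := by
    rintro g ⟨h1, h2⟩
    refine ⟨C.inv_mem h1, fun y => ?_⟩
    have e1 : ∀ z, (if z * y⁻¹ ∈ C then (g⁻¹).f z v0 else 0) =
        - (if z * y⁻¹ ∈ C then g.f ((g.h⁻¹)⁻¹ * z) v0 else 0) := by
      intro z
      split_ifs
      · rw [inv_inv]; rfl
      · rw [neg_zero]
    rw [Finset.sum_congr rfl fun z _ => e1 z, Finset.sum_neg_distrib,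
      shift C g.h⁻¹ (C.inv_mem h1) y (fun z => g.f z v0), h2, neg_zero]

/-- the second subgroup -/
def H2 {P : Type} [Group P] {I : Type} (m : ℕ) (v0 : I) : Subgroup (LW P (I → ZMod m)) where
  carrier := {g | ∀ z, g.f z v0 = 0}
  mul_mem' := by
    intro g g' h1 h2 z
    rw [mul_f, Pi.add_apply, h1, h2, add_zero]
  one_mem' := fun z => rfl
  inv_mem' := by
    intro g h1 z
    rw [inv_f, Pi.neg_apply, h1, neg_zero]

theorem split_first {V : Type} {Γ : V → Type} (v : V) (l : List (Σ v, Γ v))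
    (h : ∃ x ∈ l, x.1 = v) : ∃ p x q, l = p ++ x :: q ∧ x.1 = v ∧ ∀ y ∈ p, y.1 ≠ v := by
  induction l with
  | nil => obtain ⟨x, hx, -⟩ := h; simp at hx
  | cons a l ih =>
    by_cases ha : a.1 = v
    · exact ⟨[], a, l, rfl, ha, by simp⟩
    · obtain ⟨x, hx, hxv⟩ := h
      rw [List.mem_cons] at hx
      rcases hx with rfl | hx
      · exact absurd hxv ha
      · obtain ⟨p, y, q, rfl, hy, hp⟩ := ih ⟨x, hx, hxv⟩
        refine ⟨a :: p, y, q, rfl, hy, ?_⟩
        intro z hz
        rw [List.mem_cons] at hz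
        rcases hz with rfl | hz
        · exact ha
        · exact hp z hz

theorem t_G1 : LeafG1 := by
  intro V X Γ _ F K N hN hex
  obtain ⟨P, _, _, φ, hcm, hgood⟩ := hex
  classical
  have : Fintype P := Fintype.ofFinite P
  obtain ⟨m, hm⟩ : ∃ m, m = (N + 2) * Fintype.card P + 1 := ⟨_, rfl⟩
  have : NeZero m := ⟨by omega⟩
  let V0 : Finset V := F.image Sigma.fst
  let I : Type := {v : V // v ∈ V0}
  let j : I → V := Subtype.val
  refine ⟨LW P (I → ZMod m), inferInstance, inferInstance, ph X φ I m j,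
    ph_comm X φ I m j hcm, ?_⟩
  intro l hlen hlF hred S hS T' hT' herr' c' hc' s' hs' heq
  obtain ⟨x1, hx1, hx1S⟩ := hS
  obtain ⟨v, hv⟩ : ∃ v, v = x1.1 := ⟨_, rfl⟩
  obtain ⟨p, x, q, hl, hxv, hp⟩ := split_first v l ⟨x1, hx1, hv.symm⟩
  have hvS : v ∉ S := by rw [hv]; exact hx1S
  let v0 : I := ⟨v, Finset.mem_image.2 ⟨x1, (hlF x1 hx1).1, hv.symm⟩⟩
  have hj : j v0 = v := rfl
  let T : Finset P := T'.image rt
  have hTc : T.card ≤ K := Finset.card_image_le.trans hT'
  have hrt : ∀ (w : V) (a : Γ w), rt (ph X φ I m j w a) = φ w a := fun w a => ph_h X φ I m j w a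
  have hconj : ∀ w : P, IsErrV φ F (T.image fun t => w * t * w⁻¹) := by
    intro w t ht
    obtain ⟨t1, ht1, rfl⟩ := Finset.mem_image.1 ht
    obtain ⟨t2, ht2, rfl⟩ := Finset.mem_image.1 ht1
    obtain ⟨y, u, a, b, ha, hb, he⟩ := herr' t2 ht2
    refine ⟨w * rt y, u, a, b, ha, hb, ?_⟩
    rw [he, map_mul, map_mul, map_inv, map_mul, map_mul, map_inv, hrt, hrt, hrt]
    group
  let C : Subgroup P := Subgroup.closure (T : Set P)
  have hCconj : ∀ w c : P, c ∈ C → w * c * w⁻¹ ∈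
      Subgroup.closure ((T.image fun t => w * t * w⁻¹ : Finset P) : Set P) := by
    intro w c hc
    have h1 : (MulAut.conj w).toMonoidHom c ∈ C.map (MulAut.conj w).toMonoidHom :=
      Subgroup.mem_map_of_mem _ hc
    rw [MonoidHom.map_closure] at h1
    have h2 : ((MulAut.conj w).toMonoidHom '' (T : Set P)) =
        ((T.image fun t => w * t * w⁻¹ : Finset P) : Set P) := by
      ext t
      simp
    rw [h2] at h1
    exact h1
  have hcardc : ∀ w : P, (T.image fun t => w * t * w⁻¹).card ≤ K :=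
    fun w => Finset.card_image_le.trans hTc
  have hc1 : c' ∈ H1 m C v0 := by
    refine (Subgroup.closure_le _).2 ?_ hc'
    intro t' ht'
    obtain ⟨y, u, a, b, ha, hb, he⟩ := herr' t' ht'
    rw [ph_err] at he
    obtain ⟨g, hg⟩ : ∃ g, g = y * (tau X φ I m j u)⁻¹ := ⟨_, rfl⟩
    obtain ⟨e, hedef⟩ : ∃ e, e = φ u a * φ u b * (φ u (a * b))⁻¹ := ⟨_, rfl⟩
    have he2 : t' = g * il e * g⁻¹ := by
      rw [he, hg, hedef]
      group
    have hcC : g.h * e * g.h⁻¹ ∈ C := by
      apply Subgroup.subset_closure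
      rw [Finset.mem_coe, Finset.mem_image]
      exact ⟨t', ht', by rw [he2]; rfl⟩
    refine ⟨by rw [he2]; exact hcC, fun y' => ?_⟩
    have e1 : ∀ z, (if z * y'⁻¹ ∈ C then t'.f z v0 else 0) =
        (if z * y'⁻¹ ∈ C then g.f z v0 else 0) -
        (if z * y'⁻¹ ∈ C then g.f ((g.h * e * g.h⁻¹)⁻¹ * z) v0 else 0) := by
      intro z
      split_ifs
      · rw [he2, mul_f, mul_f, il_f, add_zero, mul_h, il_h, inv_f, Pi.add_apply, Pi.neg_apply,
          ← sub_eq_add_neg]
        congr 3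
        group
      · rw [sub_zero]
    rw [Finset.sum_congr rfl fun z _ => e1 z, Finset.sum_sub_distrib,
      shift C _ hcC y' (fun z => g.f z v0), sub_self]
  have hs1 : s' ∈ H2 (P := P) m v0 := by
    refine (Subgroup.closure_le _).2 ?_ hs'
    rintro t ⟨w, hw, a, rfl⟩ z
    have hwv : ¬ j v0 = w := fun h => hvS (by rw [← hj, h]; exact hw)
    rw [ph_f, if_neg (fun h => hwv h.2), if_neg (fun h => hwv h.2), sub_zero]
  let x0 : P := ev φ p * φ x.1 x.2
  let n : P → ℤ := fun y => ∑ z, if z * x0⁻¹ ∈ C then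
    (if y⁻¹ * z ∈ Lbar φ (X.neighborSet v) then 1 else 0) else 0
  have hform := formula X φ I m j v v0 hj (fun z => z * x0⁻¹ ∈ C) n (fun y => rfl) l 1
  have hzero : ∑ z, (if z * x0⁻¹ ∈ C then (ev (ph X φ I m j) l).f (1⁻¹ * z) v0 else 0) = 0 := by
    refine (Finset.sum_congr rfl fun z _ => ?_).trans (hc1.2 x0)
    split_ifs
    · rw [heq, inv_one, one_mul, mul_f, Pi.add_apply, hs1, add_zero]
    · rfl
  rw [hzero] at hform
  have hdvd : (m : ℤ) ∣ Dd φ v n 1 l := (ZMod.intCast_zmod_eq_zero_iff_dvd _ _).1 hform.symm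
  have hn0 : ∀ y, 0 ≤ n y := by
    intro y
    apply Finset.sum_nonneg
    intro z _
    split_ifs <;> norm_num
  have hnM : ∀ y, n y ≤ Fintype.card P := by
    intro y
    have : n y ≤ ∑ _z : P, (1 : ℤ) := by
      apply Finset.sum_le_sum
      intro z _
      split_ifs <;> norm_num
    simpa using this
  have hnx : ∀ y, n y ≠ 0 → ∃ c ∈ C, y⁻¹ * (c * x0) ∈ Lbar φ (X.neighborSet v) := by
    intro y hy
    obtain ⟨z, -, hz⟩ := Finset.exists_ne_zero_of_sum_ne_zero hy
    by_cases h1 : z * x0⁻¹ ∈ C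
    · rw [if_pos h1] at hz
      by_cases h2 : y⁻¹ * z ∈ Lbar φ (X.neighborSet v)
      · exact ⟨z * x0⁻¹, h1, by rwa [inv_mul_cancel_right]⟩
      · rw [if_neg h2] at hz; exact absurd rfl hz
    · rw [if_neg h1] at hz; exact absurd rfl hz
  have hnx0 : 1 ≤ n x0 := by
    have h1 : (if x0 * x0⁻¹ ∈ C then
      (if x0⁻¹ * x0 ∈ Lbar φ (X.neighborSet v) then (1 : ℤ) else 0) else 0) ≤ n x0 := by
      refine Finset.single_le_sum (f := fun z => if z * x0⁻¹ ∈ C then
        (if x0⁻¹ * z ∈ Lbar φ (X.neighborSet v) then (1 : ℤ) else 0) else 0) ?_ (Finset.mem_univ x0)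
      intro z _
      split_ifs <;> norm_num
    rw [mul_inv_cancel, inv_mul_cancel, if_pos C.one_mem, if_pos (Subgroup.one_mem _)] at h1
    exact h1
  have hvn : ∀ y : Σ v, Γ v, y.1 = v → y.1 ∉ X.neighborSet v := by
    intro y hy h
    rw [hy] at h
    exact X.loopless.irrefl v h
  -- first case
  have hw0 : n (ev φ p) = 0 := by
    by_contra hne
    obtain ⟨c, hc, hr⟩ := hnx _ hne
    have hxl : x ∈ l := by rw [hl]; simp
    refine hgood [x] (by simpa using hN) (by
      intro y hy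
      rw [List.mem_singleton] at hy
      rw [hy]
      exact hlF x hxl) ?_ (X.neighborSet v) ⟨x, List.mem_singleton_self x, hvn x hxv⟩
      (T.image fun t => (ev φ p)⁻¹ * t * ((ev φ p)⁻¹)⁻¹) (hcardc _) (hconj _)
      ((ev φ p)⁻¹ * c⁻¹ * ((ev φ p)⁻¹)⁻¹) (hCconj _ _ (C.inv_mem hc))
      ((ev φ p)⁻¹ * (c * x0)) hr ?_
    · intro p' u' q' a b hab
      have := congrArg List.length hab
      simp at this
      omega
    · have : ev φ [x] = φ x.1 x.2 := by rw [ev_cons, ev_nil, mul_one]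
      rw [this]
      show φ x.1 x.2 = (ev φ p)⁻¹ * c⁻¹ * ((ev φ p)⁻¹)⁻¹ *
        ((ev φ p)⁻¹ * (c * (ev φ p * φ x.1 x.2)))
      group
  -- second case
  have hw1 : ∀ u y q', q = u ++ y :: q' → y.1 = v → n (x0 * ev φ u) = 0 := by
    intro u y q' hq hy
    by_contra hne
    obtain ⟨c, hc, hr⟩ := hnx _ hne
    obtain ⟨z, hz, hzn⟩ := hred p u q' x y (by rw [hl, hq]) (hxv.trans hy.symm)
    have hul : u.length ≤ N := by
      rw [hl, hq] at hlen
      simp at hlen
      omega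
    refine hgood u hul (by
      intro t ht
      apply hlF
      rw [hl, hq]
      simp [ht]) ?_ (X.neighborSet v) ⟨z, hz, by rw [← hxv]; exact hzn⟩
      (T.image fun t => x0⁻¹ * t * (x0⁻¹)⁻¹) (hcardc _) (hconj _)
      (x0⁻¹ * c * (x0⁻¹)⁻¹) (hCconj _ _ hc)
      (((x0 * ev φ u)⁻¹ * (c * x0))⁻¹) (Subgroup.inv_mem _ hr) ?_
    · intro p' u' q'' a b hab hab2
      exact hred (p ++ x :: p') u' (q'' ++ y :: q') a b (by
        rw [hl, hq, hab]
        simp) hab2
    · group
  have hD : Dd φ v n 1 l = n x0 + Dd φ v n x0 q := by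
    rw [hl, Dd_app φ v n p (x :: q) hp, one_mul, Dd, if_pos hxv, hw0, sub_zero]
  obtain ⟨hb1, hb2⟩ := Dd_bound φ v n (Fintype.card P) hn0 hnM q x0 hw1
  have hql : (q.length : ℤ) ≤ N := by
    rw [hl] at hlen
    simp at hlen
    exact_mod_cast (by omega : q.length ≤ N)
  have hpos : 0 < Dd φ v n 1 l := by rw [hD]; linarith
  have hle := Int.le_of_dvd hpos hdvd
  have hcp : (0 : ℤ) ≤ Fintype.card P := by positivity
  have h5 := hnM x0
  have h6 : (m : ℤ) = (N + 2) * Fintype.card P + 1 := by rw [hm]; push_cast; ring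
  have h7 : (q.length : ℤ) * Fintype.card P ≤ N * Fintype.card P :=
    mul_le_mul_of_nonneg_right hql hcp
  rw [hD] at hle
  nlinarith

end Pool.Agent.N619.WF
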